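import Pool.Agent.H42.UMeag

namespace Pool.Agent.Results.MP_a16b96_lc.Full

universe v

/-- Countably perfectly meager subsets of the Cantor space. -/
def CountablyPerfectlyMeager (A : Set (ℕ → Bool)) : Prop :=
  ∀ P : ℕ → Set (ℕ → Bool), (∀ n, Perfect (P n) ∧ (P n).Nonempty) →
    ∃ C : ℕ → Set (ℕ → Bool), (∀ k, IsClosed (C k)) ∧ A ⊆ ⋃ k, C k ∧
      ∀ n, IsMeagre (Subtype.val ⁻¹' (⋃ k, C k) : Set (P n))

/-- Universally meager subsets of the Cantor space. -/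
def UniversallyMeager (A : Set (ℕ → Bool)) : Prop :=
  ∀ (Y : Type v) [TopologicalSpace Y] [PolishSpace Y] [PerfectSpace Y] [MeasurableSpace Y]
    [BorelSpace Y] (f : (ℕ → Bool) ≃ᵐ Y), IsMeagre (f '' A)

theorem result : ∃ A : Set (ℕ → Bool), UniversallyMeager.{v} A ∧ ¬ CountablyPerfectlyMeager A := by
  obtain ⟨A, h1, h2⟩ := Pool.Agent.H42.UMeag.main.{v}
  refine ⟨A, h1, fun h => ?_⟩
  obtain ⟨s, hs⟩ := exists_surjective_nat (Finset ℕ)
  obtain ⟨C, c1, c2, c3⟩ := h (fun n => Pool.Agent.H42.UMeag.PT (s n))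
    fun n => ⟨Pool.Agent.H42.UMeag.PT_perfect _, fun i => decide (i ∈ s n), fun _ _ => rfl⟩
  refine h2 C c1 (fun T => ?_) c2
  obtain ⟨n, rfl⟩ := hs T
  exact c3 n

end Pool.Agent.Results.MP_a16b96_lc.Full
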